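import Mathlib

/-!
# Two-generator subgroups of SL(2,ℂ): the commutator iteration, diagonal first generator
-/

namespace Pool.Agent.R783.Tan

open Matrix

set_option linter.unusedSimpArgs false

/-- The group SL(2,ℂ). -/
abbrev G2 := Matrix.SpecialLinearGroup (Fin 2) ℂ

lemma m00 (g h : G2) : (g * h) 0 0 = g 0 0 * h 0 0 + g 0 1 * h 1 0 := by
  simp [Matrix.mul_apply, Fin.sum_univ_two]
lemma m01 (g h : G2) : (g * h) 0 1 = g 0 0 * h 0 1 + g 0 1 * h 1 1 := by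
  simp [Matrix.mul_apply, Fin.sum_univ_two]
lemma m10 (g h : G2) : (g * h) 1 0 = g 1 0 * h 0 0 + g 1 1 * h 1 0 := by
  simp [Matrix.mul_apply, Fin.sum_univ_two]
lemma m11 (g h : G2) : (g * h) 1 1 = g 1 0 * h 0 1 + g 1 1 * h 1 1 := by
  simp [Matrix.mul_apply, Fin.sum_univ_two]
lemma i00 (g : G2) : g⁻¹ 0 0 = g 1 1 := by
  simp [Matrix.SpecialLinearGroup.SL2_inv_expl]
lemma i01 (g : G2) : g⁻¹ 0 1 = -g 0 1 := by
  simp [Matrix.SpecialLinearGroup.SL2_inv_expl]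
lemma i10 (g : G2) : g⁻¹ 1 0 = -g 1 0 := by
  simp [Matrix.SpecialLinearGroup.SL2_inv_expl]
lemma i11 (g : G2) : g⁻¹ 1 1 = g 0 0 := by
  simp [Matrix.SpecialLinearGroup.SL2_inv_expl]
lemma det1 (g : G2) : g 0 0 * g 1 1 - g 0 1 * g 1 0 = 1 := by
  have := g.det_coe
  rwa [Matrix.det_fin_two] at this
lemma ext2 {g h : G2} (a : g 0 0 = h 0 0) (b : g 0 1 = h 0 1) (c : g 1 0 = h 1 0)
    (d : g 1 1 = h 1 1) : g = h := by
  apply Matrix.SpecialLinearGroup.ext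
  intro i j
  fin_cases i <;> fin_cases j <;> assumption

/-- trace -/
noncomputable def tr (g : G2) : ℂ := (g : Matrix (Fin 2) (Fin 2) ℂ).trace
lemma tr_eq (g : G2) : tr g = g 0 0 + g 1 1 := by
  simp [tr, Matrix.trace_fin_two]

/-- Local finiteness of a subgroup of SL(2,ℂ): only finitely many elements in every ball. -/
def LF (H : Subgroup G2) : Prop := ∀ R : ℝ, {h : G2 | h ∈ H ∧ ∀ i j, ‖h i j‖ ≤ R}.Finite

/-- the diagonal matrix diag(l, 1/l) -/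
noncomputable def dg (l : ℂ) (hl : l ≠ 0) : G2 := ⟨!![l, 0; 0, l⁻¹], by
  rw [Matrix.det_fin_two_of]; field_simp; ring⟩

lemma d00 (l : ℂ) (hl : l ≠ 0) : dg l hl 0 0 = l := rfl
lemma d01 (l : ℂ) (hl : l ≠ 0) : dg l hl 0 1 = 0 := rfl
lemma d10 (l : ℂ) (hl : l ≠ 0) : dg l hl 1 0 = 0 := rfl
lemma d11 (l : ℂ) (hl : l ≠ 0) : dg l hl 1 1 = l⁻¹ := rfl

/-- twisted step `g ↦ f g f g⁻¹ f⁻¹` -/
noncomputable def T (f g : G2) : G2 := f * g * f * g⁻¹ * f⁻¹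

/-- `u = tr[f,g] - tr² f + 1` in terms of the diagonal entries -/
noncomputable def U (l : ℂ) (g : G2) : ℂ := -1 - (l - l⁻¹) ^ 2 * (g 0 0 * g 1 1)
/-- `b = tr[f,g] - 1` -/
noncomputable def B (l : ℂ) (g : G2) : ℂ := 1 - (l - l⁻¹) ^ 2 * (g 0 1 * g 1 0)
/-- `a = tr² f - 2` -/
noncomputable def aa (l : ℂ) : ℂ := l ^ 2 + l⁻¹ ^ 2

lemma B_eq (l : ℂ) (hl : l ≠ 0) (g : G2) : B l g = aa l + U l g := by
  have := det1 g
  unfold B aa U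
  have hli : l * l⁻¹ = 1 := mul_inv_cancel₀ hl
  linear_combination (l-l⁻¹)^2 * this - 2 * hli


lemma T00' (l : ℂ) (hl : l ≠ 0) (g : G2) :
    (T (dg l hl) g) 0 0 = l * (g 0 0 * g 1 1) - l⁻¹ * (g 0 1 * g 1 0) := by
  have hli : l * l⁻¹ = 1 := mul_inv_cancel₀ hl
  simp only [T, m00, m01, m10, m11, i00, i01, i10, i11, d00, d01, d10, d11]
  linear_combination (l * (g 0 0 * g 1 1) - l⁻¹ * (g 0 1 * g 1 0)) * hli

lemma T11' (l : ℂ) (hl : l ≠ 0) (g : G2) :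
    (T (dg l hl) g) 1 1 = l⁻¹ * (g 0 0 * g 1 1) - l * (g 0 1 * g 1 0) := by
  have hli : l * l⁻¹ = 1 := mul_inv_cancel₀ hl
  simp only [T, m00, m01, m10, m11, i00, i01, i10, i11, d00, d01, d10, d11]
  linear_combination (l⁻¹ * (g 0 0 * g 1 1) - l * (g 0 1 * g 1 0)) * hli

lemma T01' (l : ℂ) (hl : l ≠ 0) (g : G2) :
    (T (dg l hl) g) 0 1 = -(l ^ 2 * (l - l⁻¹)) * g 0 0 * g 0 1 := by
  simp only [T, m00, m01, m10, m11, i00, i01, i10, i11, d00, d01, d10, d11]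
  ring

lemma T10' (l : ℂ) (hl : l ≠ 0) (g : G2) :
    (T (dg l hl) g) 1 0 = (l⁻¹ ^ 2 * (l - l⁻¹)) * g 1 1 * g 1 0 := by
  simp only [T, m00, m01, m10, m11, i00, i01, i10, i11, d00, d01, d10, d11]
  ring

lemma T00 (l : ℂ) (hl : l ≠ 0) (hd : l - l⁻¹ ≠ 0) (g : G2) :
    (T (dg l hl) g) 0 0 = -(l⁻¹ ^ 2 + U l g) / (l - l⁻¹) := by
  have h1 := det1 g
  have hli : l * l⁻¹ = 1 := mul_inv_cancel₀ hl
  rw [eq_div_iff hd, T00', U]
  linear_combination (l - l⁻¹) * l⁻¹ * h1 + hli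

lemma T11 (l : ℂ) (hl : l ≠ 0) (hd : l - l⁻¹ ≠ 0) (g : G2) :
    (T (dg l hl) g) 1 1 = (l ^ 2 + U l g) / (l - l⁻¹) := by
  have h1 := det1 g
  have hli : l * l⁻¹ = 1 := mul_inv_cancel₀ hl
  rw [eq_div_iff hd, T11', U]
  linear_combination (l - l⁻¹) * l * h1 - hli

lemma ddl (d x y : ℂ) (hd : d ≠ 0) : d ^ 2 * (x / d * (y / d)) = x * y := by
  field_simp

lemma UT (l : ℂ) (hl : l ≠ 0) (hd : l - l⁻¹ ≠ 0) (g : G2) :
    U l (T (dg l hl) g) = B l g * U l g := by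
  have h1 := B_eq l hl g
  have hli : l * l⁻¹ = 1 := mul_inv_cancel₀ hl
  have e : U l (T (dg l hl) g) = -1 + (l⁻¹ ^ 2 + U l g) * (l ^ 2 + U l g) := by
    rw [U, T00 l hl hd, T11 l hl hd, ddl _ _ _ hd]; ring
  rw [e, h1, aa]
  linear_combination (l * l⁻¹ + 1) * hli

lemma BT (l : ℂ) (hl : l ≠ 0) (hd : l - l⁻¹ ≠ 0) (g : G2) :
    B l (T (dg l hl) g) = aa l + B l g * U l g := by
  rw [B_eq l hl, UT l hl hd]

/-- second step: the off-diagonal entries are almost preserved -/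
lemma TT01 (l : ℂ) (hl : l ≠ 0) (hd : l - l⁻¹ ≠ 0) (g : G2) :
    (T (dg l hl) (T (dg l hl) g)) 0 1 = (1 + l ^ 2 * U l g) * (T (dg l hl) g) 0 1 := by
  have hli : l * l⁻¹ = 1 := mul_inv_cancel₀ hl
  rw [T01', T00 l hl hd]
  have e : -(l ^ 2 * (l - l⁻¹)) * (-(l⁻¹ ^ 2 + U l g) / (l - l⁻¹)) = l ^ 2 * (l⁻¹ ^ 2 + U l g) := by
    generalize l - l⁻¹ = d at *
    field_simp
  rw [e]
  linear_combination ((T (dg l hl) g) 0 1) * (l * l⁻¹ + 1) * hli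

lemma TT10 (l : ℂ) (hl : l ≠ 0) (hd : l - l⁻¹ ≠ 0) (g : G2) :
    (T (dg l hl) (T (dg l hl) g)) 1 0 = (1 + l⁻¹ ^ 2 * U l g) * (T (dg l hl) g) 1 0 := by
  have hli : l * l⁻¹ = 1 := mul_inv_cancel₀ hl
  rw [T10', T11 l hl hd]
  have e : (l⁻¹ ^ 2 * (l - l⁻¹)) * ((l ^ 2 + U l g) / (l - l⁻¹)) = l⁻¹ ^ 2 * (l ^ 2 + U l g) := by
    generalize l - l⁻¹ = d at *
    field_simp
  rw [e]
  linear_combination ((T (dg l hl) g) 1 0) * (l * l⁻¹ + 1) * hli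

lemma T_mem {H : Subgroup G2} {f g : G2} (hf : f ∈ H) (hg : g ∈ H) : T f g ∈ H :=
  H.mul_mem (H.mul_mem (H.mul_mem (H.mul_mem hf hg) hf) (H.inv_mem hg)) (H.inv_mem hf)

/-- iterates -/
noncomputable def it (f g : G2) : ℕ → G2
  | 0 => g
  | n + 1 => T f (it f g n)

lemma it_mem {H : Subgroup G2} {f g : G2} (hf : f ∈ H) (hg : g ∈ H) (n : ℕ) : it f g n ∈ H := by
  induction n with
  | zero => exact hg
  | succ n ih => exact T_mem hf ih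

end Pool.Agent.R783.Tan
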