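import Pool.Agent.R783.Tan.K

namespace Pool.Agent.R783.Tan

open Matrix

set_option linter.unusedSimpArgs false

lemma polyid (l : ℂ) (hl : l ≠ 0) (hd : l ^ 2 - 1 ≠ 0) (p s Q : ℂ)
    (hp : p = -1 / (l * (l ^ 2 - 1))) (hs : s = l ^ 3 / (l ^ 2 - 1)) (hQ : Q = p * s - 1) :
    1 - (l - l⁻¹) ^ 2 * (Q * (l⁻¹ ^ 2 * (p^2+Q) * (p^2+p*s+s^2+Q) + l^2*(p+s)*(Q*(p+s)+s*(s^2+Q)))
      * ((p+s)*l⁻¹^2*(p*(p^2+Q)+Q*(p+s)) + (s^2+Q)*l^2*(p^2+p*s+s^2+Q))) =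
    (l^2+l⁻¹^2) - 2 * (l^2+l⁻¹^2)^3 - 3 * (l^2+l⁻¹^2)^4 + (l^2+l⁻¹^2)^5 + 3 * (l^2+l⁻¹^2)^6
      + (l^2+l⁻¹^2)^7 := by
  have hps : p + s = (l^2+1)/l := by
    rw [hp, hs]; field_simp; ring
  have h1 : p^2 + Q = (-(l^4+1)/(l^2*(l^2-1)) : ℂ) := by
    have : p^2 + Q = p * (p + s) - 1 := by rw [hQ]; ring
    rw [this, hps, hp]; field_simp; ring
  have h2 : s^2 + Q = (l^4+1)/(l^2-1) := by
    have : s^2 + Q = s * (p + s) - 1 := by rw [hQ]; ring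
    rw [this, hps, hs]; field_simp; ring
  have h3 : p^2+p*s+s^2+Q = (l^4+l^2+1)/l^2 := by
    have : p^2+p*s+s^2+Q = (p+s)^2 - 1 := by rw [hQ]; ring
    rw [this, hps]; field_simp; ring
  have h4 : Q = -(l^4-l^2+1)/(l^2-1)^2 := by
    rw [hQ, hp, hs]; field_simp; ring
  rw [h1, h2, h3, hps, h4, hp, hs]
  field_simp
  ring

lemma Fbound (P : ℂ) (hP : ‖P‖ ≤ 1/2) : ‖P ^ 2 - 1‖ * (‖P + 1‖ * ‖P + 2‖) < 31/8 := by
  have e0 : ‖P‖ ^ 2 = P.re ^ 2 + P.im ^ 2 := by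
    rw [← Complex.normSq_eq_norm_sq, Complex.normSq_apply]; ring
  have h0 : P.re ^ 2 + P.im ^ 2 ≤ 1/4 := by
    rw [← e0]; nlinarith [norm_nonneg P]
  have e1 : ‖P ^ 2 - 1‖ ^ 2 = (P.re ^ 2 + P.im ^ 2 + 1) ^ 2 - 4 * P.re ^ 2 := by
    rw [← Complex.normSq_eq_norm_sq, Complex.normSq_apply]
    simp only [pow_two, Complex.sub_re, Complex.mul_re, Complex.one_re, Complex.sub_im,
      Complex.mul_im, Complex.one_im]
    ring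
  have e2 : ‖P + 1‖ ^ 2 = P.re ^ 2 + P.im ^ 2 + 1 + 2 * P.re := by
    rw [← Complex.normSq_eq_norm_sq, Complex.normSq_apply]
    simp only [Complex.add_re, Complex.one_re, Complex.add_im, Complex.one_im]
    ring
  have e3 : ‖P + 2‖ ^ 2 = P.re ^ 2 + P.im ^ 2 + 4 + 4 * P.re := by
    rw [← Complex.normSq_eq_norm_sq, Complex.normSq_apply]
    simp only [Complex.add_re, Complex.add_im, Complex.re_ofNat, Complex.im_ofNat]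
    ring
  set x := P.re
  set y := P.im
  have hx1 : x ≤ 1/2 := by nlinarith
  have hx2 : -(1/2) ≤ x := by nlinarith
  have f1 : ‖P ^ 2 - 1‖ ^ 2 ≤ 25/16 - 4 * x ^ 2 := by rw [e1]; nlinarith [sq_nonneg x, sq_nonneg y]
  have f2 : ‖P + 1‖ ^ 2 ≤ 5/4 + 2 * x := by rw [e2]; linarith
  have f3 : ‖P + 2‖ ^ 2 ≤ 17/4 + 4 * x := by rw [e3]; linarith
  have f23 : ‖P + 1‖ ^ 2 * ‖P + 2‖ ^ 2 ≤ (5/4 + 2 * x) * (17/4 + 4 * x) :=
    mul_le_mul f2 f3 (by positivity) (by linarith)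
  have f123 : ‖P ^ 2 - 1‖ ^ 2 * (‖P + 1‖ ^ 2 * ‖P + 2‖ ^ 2) ≤
      (25/16 - 4 * x ^ 2) * ((5/4 + 2 * x) * (17/4 + 4 * x)) :=
    mul_le_mul f1 f23 (by positivity) (by nlinarith)
  have f4 : (25/16 - 4 * x ^ 2) * ((5/4 + 2 * x) * (17/4 + 4 * x)) ≤ 15 := by
    nlinarith [sq_nonneg (x - 3/10), sq_nonneg (x * (x - 3/10)), sq_nonneg (x ^ 2 - 1/9),
      mul_nonneg (sub_nonneg.mpr hx1) (by linarith : (0:ℝ) ≤ x + 1/2),
      mul_nonneg (mul_nonneg (sub_nonneg.mpr hx1) (by linarith : (0:ℝ) ≤ x + 1/2))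
        (by linarith : (0:ℝ) ≤ x + 1/2), sq_nonneg (x + 1/2)]
  have f5 : (‖P ^ 2 - 1‖ * (‖P + 1‖ * ‖P + 2‖)) ^ 2 ≤ 15 := by
    calc _ = ‖P ^ 2 - 1‖ ^ 2 * (‖P + 1‖ ^ 2 * ‖P + 2‖ ^ 2) := by ring
      _ ≤ _ := f123.trans f4
  by_contra hcon
  push Not at hcon
  nlinarith

lemma norm_pow_le_half (P : ℂ) (hP : ‖P‖ ≤ 1/2) (n : ℕ) : ‖P ^ n‖ ≤ (1/2) ^ n := by
  rw [norm_pow]; exact pow_le_pow_left₀ (norm_nonneg _) hP n

lemma beta_bound (P : ℂ) (hP : ‖P‖ ≤ 1/2) :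
    ‖(P ^ 2 + P - 1) * (P ^ 4 + 2 * P ^ 3 - P - 1)‖ ≤ 131/64 := by
  have h : (P ^ 2 + P - 1) * (P ^ 4 + 2 * P ^ 3 - P - 1) =
    1 + (-(2 * P ^ 2)) + (-(3 * P ^ 3)) + P ^ 4 + 3 * P ^ 5 + P ^ 6 := by ring
  rw [h]
  have n2 := norm_pow_le_half P hP 2
  have n3 := norm_pow_le_half P hP 3
  have n4 := norm_pow_le_half P hP 4
  have n5 := norm_pow_le_half P hP 5
  have n6 := norm_pow_le_half P hP 6
  have e1 : ‖(1:ℂ)‖ = 1 := norm_one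
  have e2 : ‖-(2 * P ^ 2)‖ = 2 * ‖P ^ 2‖ := by rw [norm_neg, norm_mul]; norm_num
  have e3 : ‖-(3 * P ^ 3)‖ = 3 * ‖P ^ 3‖ := by rw [norm_neg, norm_mul]; norm_num
  have e5 : ‖3 * P ^ 5‖ = 3 * ‖P ^ 5‖ := by rw [norm_mul]; norm_num
  have t1 := norm_add_le (1 + (-(2 * P ^ 2)) + (-(3 * P ^ 3)) + P ^ 4 + 3 * P ^ 5) (P ^ 6)
  have t2 := norm_add_le (1 + (-(2 * P ^ 2)) + (-(3 * P ^ 3)) + P ^ 4) (3 * P ^ 5)
  have t3 := norm_add_le (1 + (-(2 * P ^ 2)) + (-(3 * P ^ 3))) (P ^ 4)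
  have t4 := norm_add_le (1 + (-(2 * P ^ 2))) (-(3 * P ^ 3))
  have t5 := norm_add_le (1:ℂ) (-(2 * P ^ 2))
  norm_num at n2 n3 n4 n5 n6
  norm_num [norm_pow] at *
  linarith

lemma beta_ne (P : ℂ) (hP : ‖P‖ ≤ 1/2) :
    (P ^ 2 + P - 1) * (P ^ 4 + 2 * P ^ 3 - P - 1) ≠ 0 := by
  have n2 := norm_pow_le_half P hP 2
  have n3 := norm_pow_le_half P hP 3
  have n4 := norm_pow_le_half P hP 4
  apply mul_ne_zero
  · intro h
    have h' : P ^ 2 + P = 1 := by linear_combination h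
    have t := norm_add_le (P ^ 2) P
    rw [h', norm_one] at t
    norm_num at n2 t
    linarith
  · intro h
    have h' : P ^ 4 + 2 * P ^ 3 + (-P) = 1 := by linear_combination h
    have t := norm_add_le (P ^ 4 + 2 * P ^ 3) (-P)
    have t2 := norm_add_le (P ^ 4) (2 * P ^ 3)
    have e2 : ‖2 * P ^ 3‖ = 2 * ‖P ^ 3‖ := by rw [norm_mul]; norm_num
    rw [h', norm_one, norm_neg] at t
    rw [e2] at t2
    norm_num at n3 n4 t t2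
    linarith

lemma lin_ne (P : ℂ) (hP : ‖P‖ ≤ 1/2) : P - 1 ≠ 0 ∧ P + 1 ≠ 0 ∧ P + 2 ≠ 0 := by
  refine ⟨?_, ?_, ?_⟩ <;> intro h
  · have : P = 1 := by linear_combination h
    rw [this] at hP; norm_num at hP
  · have : P = -1 := by linear_combination h
    rw [this] at hP; norm_num at hP
  · have : P = -2 := by linear_combination h
    rw [this] at hP; norm_num at hP

lemma word01 (l : ℂ) (hl : l ≠ 0) (h : G2) :
    (h * h * (dg l hl)⁻¹ * (dg l hl)⁻¹ * h * h * h) 0 1 =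
      h 0 1 * (l⁻¹ ^ 2 * ((h 0 0)^2+h 0 1 * h 1 0) * ((h 0 0)^2+h 0 0*h 1 1+(h 1 1)^2+h 0 1 * h 1 0)
        + l^2*(h 0 0+h 1 1)*(h 0 1 * h 1 0*(h 0 0+h 1 1)+h 1 1*((h 1 1)^2+h 0 1 * h 1 0))) := by
  simp only [m00, m01, m10, m11, i00, i01, i10, i11, d00, d01, d10, d11]
  ring

lemma word10 (l : ℂ) (hl : l ≠ 0) (h : G2) :
    (h * h * (dg l hl)⁻¹ * (dg l hl)⁻¹ * h * h * h) 1 0 =
      h 1 0 * ((h 0 0+h 1 1)*l⁻¹^2*(h 0 0*((h 0 0)^2+h 0 1 * h 1 0)+h 0 1 * h 1 0*(h 0 0+h 1 1))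
        + ((h 1 1)^2+h 0 1 * h 1 0)*l^2*((h 0 0)^2+h 0 0*h 1 1+(h 1 1)^2+h 0 1 * h 1 0)) := by
  simp only [m00, m01, m10, m11, i00, i01, i10, i11, d00, d01, d10, d11]
  ring

/-- no discrete group contains `f, g` with `tr(f g f g⁻¹) = 1` and `0 < |tr² f - 2| ≤ 1/2` -/
lemma E {H : Subgroup G2} (hH : LF H) (l : ℂ) (hl : l ≠ 0) (hd : l - l⁻¹ ≠ 0)
    (hf : dg l hl ∈ H) {g : G2} (hg : g ∈ H)
    (h0 : U l g = 0) (ha : aa l ≠ 0) (ha2 : ‖aa l‖ ≤ 1/2) : False := by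
  set f := dg l hl with hfdef
  set h := T f g with hh
  have hhm : h ∈ H := T_mem hf hg
  have hli : l * l⁻¹ = 1 := mul_inv_cancel₀ hl
  have hd2 : l ^ 2 - 1 ≠ 0 := by
    intro h'
    apply hd
    have : l * (l - l⁻¹) = 0 := by linear_combination h' - hli
    rcases mul_eq_zero.mp this with h'' | h''
    · exact absurd h'' hl
    · exact h''
  have hp : h 0 0 = -1 / (l * (l ^ 2 - 1)) := by
    rw [hh, T00 l hl hd, h0]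
    have : l - l⁻¹ = (l ^ 2 - 1) / l := by field_simp
    rw [this]; field_simp; ring
  have hs : h 1 1 = l ^ 3 / (l ^ 2 - 1) := by
    rw [hh, T11 l hl hd, h0]
    have : l - l⁻¹ = (l ^ 2 - 1) / l := by field_simp
    rw [this]; field_simp; ring
  have hQ : h 0 1 * h 1 0 = h 0 0 * h 1 1 - 1 := by linear_combination -(det1 h)
  set g2 : G2 := h * h * f⁻¹ * f⁻¹ * h * h * h with hg2
  have hg2m : g2 ∈ H := by
    have i := H.inv_mem hf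
    exact H.mul_mem (H.mul_mem (H.mul_mem (H.mul_mem (H.mul_mem (H.mul_mem hhm hhm) i) i) hhm) hhm) hhm
  have hB : B l g2 = aa l - 2 * (aa l)^3 - 3 * (aa l)^4 + (aa l)^5 + 3 * (aa l)^6 + (aa l)^7 := by
    rw [aa, ← polyid l hl hd2 (h 0 0) (h 1 1) (h 0 1 * h 1 0) hp hs hQ, B]
    rw [hg2, hfdef, word01, word10]
    ring
  set P := aa l with hP
  have hB' : B l g2 = P * ((P ^ 2 + P - 1) * (P ^ 4 + 2 * P ^ 3 - P - 1)) := by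
    rw [hB]; ring
  have hU' : U l g2 = P ^ 3 * (P ^ 2 - 1) * ((P + 1) * (P + 2)) := by
    have := B_eq l hl g2
    rw [hB, ← hP] at this
    linear_combination -this
  obtain ⟨z1, z2, z3⟩ := lin_ne P ha2
  have z4 := beta_ne P ha2
  have hP0 : 0 < ‖P‖ := norm_pos_iff.mpr ha
  have hsmall : ‖U l (T f g2)‖ < ‖P‖ := by
    rw [UT l hl hd, hB', hU']
    have nrm : ‖P * ((P ^ 2 + P - 1) * (P ^ 4 + 2 * P ^ 3 - P - 1)) *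
        (P ^ 3 * (P ^ 2 - 1) * ((P + 1) * (P + 2)))‖ =
        ‖P‖ * (‖P‖ ^ 3 * (‖(P ^ 2 + P - 1) * (P ^ 4 + 2 * P ^ 3 - P - 1)‖ *
        (‖P ^ 2 - 1‖ * (‖P + 1‖ * ‖P + 2‖)))) := by
      rw [← norm_mul (P + 1), ← norm_mul (P ^ 2 - 1), ← norm_mul, ← norm_pow, ← norm_mul, ← norm_mul]
      congr 1; ring
    rw [nrm]
    have b1 := beta_bound P ha2
    have b2 := Fbound P ha2
    have b3 : ‖P‖ ^ 3 ≤ 1/8 := by
      have := pow_le_pow_left₀ (norm_nonneg P) ha2 3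
      norm_num at this; linarith
    have b4 : ‖(P ^ 2 + P - 1) * (P ^ 4 + 2 * P ^ 3 - P - 1)‖ *
        (‖P ^ 2 - 1‖ * (‖P + 1‖ * ‖P + 2‖)) < 8 := by
      calc _ ≤ 131/64 * (‖P ^ 2 - 1‖ * (‖P + 1‖ * ‖P + 2‖)) :=
            mul_le_mul_of_nonneg_right b1 (by positivity)
        _ < 8 := by linarith
    have b5 : ‖P‖ ^ 3 * (‖(P ^ 2 + P - 1) * (P ^ 4 + 2 * P ^ 3 - P - 1)‖ *
        (‖P ^ 2 - 1‖ * (‖P + 1‖ * ‖P + 2‖))) < 1 := by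
      have q0 : 0 ≤ ‖(P ^ 2 + P - 1) * (P ^ 4 + 2 * P ^ 3 - P - 1)‖ *
        (‖P ^ 2 - 1‖ * (‖P + 1‖ * ‖P + 2‖)) := by positivity
      calc _ ≤ 1/8 * (‖(P ^ 2 + P - 1) * (P ^ 4 + 2 * P ^ 3 - P - 1)‖ *
        (‖P ^ 2 - 1‖ * (‖P + 1‖ * ‖P + 2‖))) := mul_le_mul_of_nonneg_right b3 q0
        _ < 1 := by linarith
    calc _ < ‖P‖ * 1 := mul_lt_mul_of_pos_left b5 hP0
      _ = ‖P‖ := mul_one _
  refine K hH l hl hd hf (T_mem hf hg2m) ?_ ?_ (Or.inr hsmall)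
  · rw [UT l hl hd, hB', hU']
    have z5 : P ^ 2 - 1 ≠ 0 := by
      have : P ^ 2 - 1 = (P - 1) * (P + 1) := by ring
      rw [this]; exact mul_ne_zero z1 z2
    exact mul_ne_zero (mul_ne_zero ha z4) (mul_ne_zero (mul_ne_zero (pow_ne_zero 3 ha) z5)
      (mul_ne_zero z2 z3))
  · rw [← hP]; linarith

end Pool.Agent.R783.Tan
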