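import Pool.Agent.R783.Tan.Basic

namespace Pool.Agent.R783.Tan

open Matrix

lemma seq_bdd (y c : ℕ → ℂ) (C ρ : ℝ) (hρ0 : 0 ≤ ρ) (hρ : ρ < 1) (hC : 0 ≤ C)
    (hc : ∀ n, ‖c n‖ ≤ C * ρ ^ n) (hy : ∀ n, y (n + 1) = (1 + c n) * y n) :
    ∃ M : ℝ, ∀ n, ‖y n‖ ≤ M := by
  refine ⟨‖y 0‖ * Real.exp (C * (1 - ρ)⁻¹), fun n => ?_⟩
  have key : ‖y n‖ ≤ ‖y 0‖ * Real.exp (C * ∑ j ∈ Finset.range n, ρ ^ j) := by
    induction n with
    | zero => simp
    | succ n ih =>
      rw [hy, norm_mul, Finset.sum_range_succ, mul_add, Real.exp_add]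
      have h1 : ‖1 + c n‖ ≤ Real.exp (C * ρ ^ n) := by
        calc ‖1 + c n‖ ≤ ‖(1:ℂ)‖ + ‖c n‖ := norm_add_le _ _
          _ ≤ 1 + C * ρ ^ n := by rw [norm_one]; linarith [hc n]
          _ ≤ _ := by linarith [Real.add_one_le_exp (C * ρ ^ n)]
      calc ‖1 + c n‖ * ‖y n‖ ≤ Real.exp (C * ρ ^ n) * (‖y 0‖ * Real.exp (C * ∑ j ∈ Finset.range n, ρ ^ j)) :=
            mul_le_mul h1 ih (norm_nonneg _) (Real.exp_pos _).le
        _ = _ := by ring
  refine key.trans (mul_le_mul_of_nonneg_left (Real.exp_le_exp.mpr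
    (mul_le_mul_of_nonneg_left ?_ hC)) (norm_nonneg _))
  have := Summable.sum_le_tsum (Finset.range n) (fun i _ => pow_nonneg hρ0 i)
    (summable_geometric_of_lt_one hρ0 hρ)
  rwa [tsum_geometric_of_lt_one hρ0 hρ] at this

/-- the basic non-discreteness lemma: contraction of the twisted iteration -/
lemma K {H : Subgroup G2} (hH : LF H) (l : ℂ) (hl : l ≠ 0) (hd : l - l⁻¹ ≠ 0)
    (hf : dg l hl ∈ H) {g : G2} (hg : g ∈ H)
    (h0 : U l g ≠ 0) (h1 : ‖aa l‖ + ‖U l g‖ < 1) (h2 : aa l = 0 ∨ ‖U l g‖ < ‖aa l‖) : False := by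
  set f := dg l hl with hfdef
  set u : ℕ → ℂ := fun n => U l (it f g n) with hu
  set ρ := ‖aa l‖ + ‖U l g‖ with hρ
  have hρ0 : 0 ≤ ρ := by positivity
  have hstep : ∀ n, u (n + 1) = (aa l + u n) * u n := by
    intro n
    simp only [hu]
    rw [it, UT l hl hd, B_eq l hl]
  have hmain : ∀ n, u n ≠ 0 ∧ ‖u n‖ ≤ ‖U l g‖ * ρ ^ n ∧ ‖u n‖ ≤ ‖U l g‖ := by
    intro n
    induction n with
    | zero => exact ⟨h0, by simp [hu, it], by simp [hu, it]⟩
    | succ n ih =>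
      obtain ⟨i1, i2, i3⟩ := ih
      have hb : ‖aa l + u n‖ ≤ ρ := (norm_add_le _ _).trans (by rw [hρ]; linarith)
      have hb0 : aa l + u n ≠ 0 := by
        rcases h2 with h | h
        · rw [h, zero_add]; exact i1
        · intro h'
          have : aa l = - u n := by linear_combination h'
          rw [this, norm_neg] at h
          linarith
      refine ⟨by rw [hstep]; exact mul_ne_zero hb0 i1, ?_, ?_⟩
      · rw [hstep, norm_mul, pow_succ]
        calc ‖aa l + u n‖ * ‖u n‖ ≤ ρ * (‖U l g‖ * ρ ^ n) :=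
              mul_le_mul hb i2 (norm_nonneg _) hρ0
          _ = _ := by ring
      · rw [hstep, norm_mul]
        calc ‖aa l + u n‖ * ‖u n‖ ≤ 1 * ‖U l g‖ :=
              mul_le_mul (hb.trans h1.le) i3 (norm_nonneg _) zero_le_one
          _ = _ := by ring
  have hanti : StrictAnti (fun n => ‖u n‖) := by
    apply strictAnti_nat_of_succ_lt
    intro n
    obtain ⟨i1, i2, i3⟩ := hmain n
    have hb : ‖aa l + u n‖ ≤ ρ := (norm_add_le _ _).trans (by rw [hρ]; linarith)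
    show ‖u (n+1)‖ < ‖u n‖
    rw [hstep, norm_mul]
    have : 0 < ‖u n‖ := norm_pos_iff.mpr i1
    calc ‖aa l + u n‖ * ‖u n‖ ≤ ρ * ‖u n‖ := mul_le_mul_of_nonneg_right hb this.le
      _ < 1 * ‖u n‖ := mul_lt_mul_of_pos_right h1 this
      _ = _ := one_mul _
  have hd' : 0 < ‖l - l⁻¹‖ := norm_pos_iff.mpr hd
  -- bounds
  obtain ⟨M1, hM1⟩ := seq_bdd (fun n => (it f g (n + 1)) 0 1) (fun n => l ^ 2 * u n)
    (‖l ^ 2‖ * ‖U l g‖) ρ hρ0 h1 (by positivity)
    (fun n => by rw [norm_mul]; nlinarith [(hmain n).2.1, norm_nonneg (l^2)])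
    (fun n => by
      simp only [hu]
      exact TT01 l hl hd _)
  obtain ⟨M2, hM2⟩ := seq_bdd (fun n => (it f g (n + 1)) 1 0) (fun n => l⁻¹ ^ 2 * u n)
    (‖l⁻¹ ^ 2‖ * ‖U l g‖) ρ hρ0 h1 (by positivity)
    (fun n => by rw [norm_mul]; nlinarith [(hmain n).2.1, norm_nonneg (l⁻¹^2)])
    (fun n => by
      simp only [hu]
      exact TT10 l hl hd _)
  set M3 := (‖l⁻¹ ^ 2‖ + ‖U l g‖) / ‖l - l⁻¹‖
  set M4 := (‖l ^ 2‖ + ‖U l g‖) / ‖l - l⁻¹‖
  have hM3 : ∀ n, ‖(it f g (n + 1)) 0 0‖ ≤ M3 := by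
    intro n
    rw [it, T00 l hl hd, norm_div, norm_neg]
    exact div_le_div_of_nonneg_right ((norm_add_le _ _).trans (by linarith [(hmain n).2.2])) hd'.le
  have hM4 : ∀ n, ‖(it f g (n + 1)) 1 1‖ ≤ M4 := by
    intro n
    rw [it, T11 l hl hd, norm_div]
    exact div_le_div_of_nonneg_right ((norm_add_le _ _).trans (by linarith [(hmain n).2.2])) hd'.le
  have hfin := hH (max (max M1 M2) (max M3 M4))
  refine Set.infinite_of_injective_forall_mem (f := fun n => it f g (n + 1)) ?_ ?_ hfin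
  · intro m n hmn
    have : (fun n => ‖u n‖) (m + 1) = (fun n => ‖u n‖) (n + 1) := by
      simp only [hu] 
      simp only at hmn
      rw [hmn]
    have := hanti.injective this
    omega
  · intro n
    refine ⟨it_mem hf hg _, ?_⟩
    intro i j
    fin_cases i <;> fin_cases j
    · exact (hM3 n).trans (by simp)
    · exact (hM1 n).trans (by simp)
    · exact (hM2 n).trans (by simp)
    · exact (hM4 n).trans (by simp)

end Pool.Agent.R783.Tan
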